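import Mathlib

/-!
# Every finite lattice is an interstructure lattice of models of PA: interface

* `Sp L ρ`      : finite `L`-valued similarity spaces with top value `ρ`
* `Can B C`     : every equivalence relation on `C` is canonical on an isometric copy of `B`
* `CanStatement`: module A (canonical partition theorem)
* `Fam L`       : the infinite family with a notion of largeness (module B: `FamStatement`)
* `P0`          : countably many pointwise operations (Skolem functions of arithmetic, ...)
* `Gen F`       : a countable set `D` of functions and a generic sequence of large sets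
                  (module C: `GenStatement`)
* `BaseStatement` (module D1): the definable ultrapower `N = D/U` is a model of PA, and subsets of
  `D` closed under the operations in `P0` give elementary substructures
* `IsoStatement`  (module D2): the lattice of elementary substructures of `N` above the bottom one
-/

set_option autoImplicit false

namespace Pool.Agent.Helper95_PA

open FirstOrder FirstOrder.Language

/-! ### Modules A and B: combinatorics -/

/-- A finite `L`-valued similarity space with top value `ρ` (an `L`-valued ultrametric space, with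
the order reversed). -/
structure Sp (L : Type) [Lattice L] (ρ : L) : Type 1 where
  carrier : Type
  fin : Finite carrier
  d : carrier → carrier → L
  d_self : ∀ x, d x x = ρ
  symm : ∀ x y, d x y = d y x
  tri : ∀ x y z, d x y ⊓ d y z ≤ d x z
  sep : ∀ x y, d x y = ρ → x = y

/-- Every equivalence relation on `C` is canonical on some isometric copy of `B`. -/
def Can {L : Type} [Lattice L] {ρ : L} (B C : Sp L ρ) : Prop :=
  ∀ Θ : C.carrier → C.carrier → Prop, Equivalence Θ →
    ∃ (f : B.carrier → C.carrier) (r : L), (∀ x y, C.d (f x) (f y) = B.d x y) ∧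
      ∀ x y, Θ (f x) (f y) ↔ r ≤ B.d x y

/-- MODULE A. The canonical partition theorem. -/
def CanStatement : Prop :=
  ∀ (L : Type) [Lattice L] [Finite L] (ρ : L) (B : Sp L ρ), ∃ C : Sp L ρ, Can B C

/-- A countable set with equivalence relations `E r` (`r ∈ L`), where `E ⊥` has finite classes,
and a notion of large subset with the canonical partition property. -/
structure Fam (L : Type) [Lattice L] [BoundedOrder L] : Type 1 where
  X : Type
  countable : Countable X
  E : L → X → X → Prop
  equiv : ∀ r, Equivalence (E r)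
  finite : ∀ x, {y | E ⊥ x y}.Finite
  top : ∀ x y, E ⊤ x y → x = y
  sup : ∀ r s x y, E (r ⊔ s) x y ↔ E r x y ∧ E s x y
  Large : Set X → Prop
  large_univ : Large Set.univ
  large_sel : ∀ S, Large S → ∀ f : X → ℕ, ∃ S' ⊆ S, Large S' ∧
    (∃ r, ∀ x ∈ S', ∀ y ∈ S', E ⊥ x y → (f x = f y ↔ E r x y)) ∧
    ((∀ x, f x = 0 ∨ f x = 1) → ∃ c, ∀ x ∈ S', f x = c)
  large_nonempty : ∀ S, Large S → S.Nonempty
  large_faithful : ∀ S, Large S → ∀ r s,
    (∀ x ∈ S, ∀ y ∈ S, E s x y → E r x y) → r ≤ s

/-- MODULE B. From the canonical partition theorem to a family. (Take `B 0` with three points at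
pairwise similarity `⊥` and for each `s ≠ ⊤` two points at similarity exactly `s`,
`B (n+1)` canonical for `B n`, `X = Σ n, B n`, `E r x y` iff `x, y` are in the same `B n` and
`r ≤ d x y`; `S` is large iff for all `n` and `N` there is `m ≥ N` such that `S ∩ B m` contains an
isometric copy of `B n`.) -/
def FamStatement : Prop :=
  ∀ (L : Type) [Lattice L] [BoundedOrder L] [Finite L], Nonempty (Fam L)

/-! ### The structure of arithmetic -/

/-- The natural numbers as a structure in the language of rings, with `-x = 0`. -/
instance natRing : Language.ring.Structure ℕ where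
  funMap {n} f := match n, f with
    | _, .add => fun v => v 0 + v 1
    | _, .mul => fun v => v 0 * v 1
    | _, .neg => fun _ => 0
    | _, .zero => fun _ => 0
    | _, .one => fun _ => 1
  RelMap := fun r => nomatch r

/-- The least witness `y` of `ψ(v 0, …, v (m-1), y)`; all variables with number `≥ m` get the
value `y`. The value is `0` if there is no witness. -/
noncomputable def skolem (ψ : Language.ring.Formula ℕ) (m : ℕ) (v : Fin m → ℕ) : ℕ :=
  sInf {y : ℕ | ψ.Realize (fun i => if h : i < m then v ⟨i, h⟩ else y)}

/-- Finitary functions on the natural numbers. -/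
abbrev Fn : Type := Σ n : ℕ, (Fin n → ℕ) → ℕ

/-- The countably many pointwise operations used. -/
def P0 : Set Fn :=
  Set.range (fun p : Language.ring.Formula ℕ × ℕ => (⟨p.2, skolem p.1 p.2⟩ : Fn)) ∪
  {⟨2, fun v => v 0 + v 1⟩, ⟨2, fun v => v 0 * v 1⟩, ⟨0, fun _ => 0⟩, ⟨0, fun _ => 1⟩,
    ⟨1, fun _ => 0⟩, ⟨1, fun v => v 0 - 1⟩, ⟨2, fun v => if v 0 = v 1 then 1 else 0⟩}

/-- `A` is closed under the pointwise operations in `P0`. -/
def Closed {X : Type} (A : Set (X → ℕ)) : Prop :=
  ∀ p ∈ P0, ∀ f : Fin p.1 → (X → ℕ), (∀ i, f i ∈ A) → (fun t => p.2 (fun i => f i t)) ∈ A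

/-! ### Module C: a generic sequence -/

/-- A countable set `D` of functions on `F.X` closed under `P0`, and a decreasing sequence of large
sets which decides all functions in `D`. -/
structure Gen {L : Type} [Lattice L] [BoundedOrder L] (F : Fam L) where
  D : Set (F.X → ℕ)
  closed : Closed D
  e : L → F.X → ℕ
  e_mem : ∀ r, e r ∈ D
  e_iff : ∀ r x y, F.E ⊥ x y → (e r x = e r y ↔ F.E r x y)
  S : ℕ → Set F.X
  anti : Antitone S
  large : ∀ k, F.Large (S k)
  can : ∀ f ∈ D, ∃ k r, ∀ x ∈ S k, ∀ y ∈ S k, F.E ⊥ x y → (f x = f y ↔ F.E r x y)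
  dec : ∀ f ∈ D, (∀ x, f x = 0 ∨ f x = 1) → ∃ k c, ∀ x ∈ S k, f x = c
  code : ∀ f ∈ D, ∀ h ∈ D, ∀ k,
    (∀ x ∈ S k, ∀ y ∈ S k, F.E ⊥ x y → h x = h y → f x = f y) →
    ∃ a ∈ D, ∃ b ∈ D, (∀ x y, F.E ⊥ x y → a x = a y) ∧ (∀ x y, F.E ⊥ x y → b x = b y) ∧
      ∀ x ∈ S k, f x = a x % ((h x + 1) * b x + 1)

/-- MODULE C. (`D` is the closure of the empty set under countably many finitary operations:
the pointwise operations in `P0`, the constants `e r` and the indicator of the whole set, the
operation which sends the indicator of a large set `S` and `f` to the indicator of a set `S'` as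
in `large_sel`, and two coding operations `(indicator of S, f, h) ↦ a, b` given by the
Gödel beta function, see `Nat.beta_unbeta_coe`; `P0` is countable.) -/
def GenStatement : Prop :=
  ∀ (L : Type) [Lattice L] [BoundedOrder L] [Finite L] (F : Fam L), Nonempty (Gen F)

/-! ### Module D: models -/

/-- The axioms of PA as in the frozen statement. -/
def IsPA (N : Type) [Language.ring.Structure N] : Prop :=
  (∀ x : N, Structure.funMap FirstOrder.Ring.addFunc ![x, Structure.funMap FirstOrder.Ring.oneFunc ![] ]
      ≠ Structure.funMap FirstOrder.Ring.zeroFunc ![]) ∧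
  (∀ x y : N, Structure.funMap FirstOrder.Ring.addFunc ![x, Structure.funMap FirstOrder.Ring.oneFunc ![] ]
      = Structure.funMap FirstOrder.Ring.addFunc ![y, Structure.funMap FirstOrder.Ring.oneFunc ![] ] → x = y) ∧
  (∀ x : N, Structure.funMap FirstOrder.Ring.addFunc ![x, Structure.funMap FirstOrder.Ring.zeroFunc ![] ] = x) ∧
  (∀ x y : N, Structure.funMap FirstOrder.Ring.addFunc
      ![x, Structure.funMap FirstOrder.Ring.addFunc ![y, Structure.funMap FirstOrder.Ring.oneFunc ![] ] ]
      = Structure.funMap FirstOrder.Ring.addFunc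
        ![Structure.funMap FirstOrder.Ring.addFunc ![x, y], Structure.funMap FirstOrder.Ring.oneFunc ![] ]) ∧
  (∀ x : N, Structure.funMap FirstOrder.Ring.mulFunc ![x, Structure.funMap FirstOrder.Ring.zeroFunc ![] ]
      = Structure.funMap FirstOrder.Ring.zeroFunc ![]) ∧
  (∀ x y : N, Structure.funMap FirstOrder.Ring.mulFunc
      ![x, Structure.funMap FirstOrder.Ring.addFunc ![y, Structure.funMap FirstOrder.Ring.oneFunc ![] ] ]
      = Structure.funMap FirstOrder.Ring.addFunc ![Structure.funMap FirstOrder.Ring.mulFunc ![x, y], x]) ∧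
  (∀ x : N, Structure.funMap FirstOrder.Ring.negFunc ![x] = Structure.funMap FirstOrder.Ring.zeroFunc ![]) ∧
  (∀ S : Set N, (Set.univ : Set N).Definable Language.ring {v : Fin 1 → N | v 0 ∈ S} →
      Structure.funMap FirstOrder.Ring.zeroFunc ![] ∈ S →
      (∀ x ∈ S, Structure.funMap FirstOrder.Ring.addFunc ![x, Structure.funMap FirstOrder.Ring.oneFunc ![] ] ∈ S) →
      ∀ x : N, x ∈ S)

/-- `N` with the map `q` is the definable ultrapower of `ℕ` by the generic sequence. -/
structure Pres {L : Type} [Lattice L] [BoundedOrder L] {F : Fam L} (G : Gen F)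
    (N : Type) [Language.ring.Structure N] (q : (F.X → ℕ) → N) : Prop where
  surj : ∀ z : N, ∃ f ∈ G.D, q f = z
  eq_iff : ∀ f ∈ G.D, ∀ g ∈ G.D, q f = q g ↔ ∃ k, ∀ x ∈ G.S k, f x = g x
  map : ∀ (n : ℕ) (fn : Language.ring.Functions n) (f : Fin n → F.X → ℕ), (∀ i, f i ∈ G.D) →
    Structure.funMap fn (fun i => q (f i)) = q (fun t => Structure.funMap fn (fun i => f i t))
  el : ∀ A ⊆ G.D, Closed A → ∃ K : Language.ring.ElementarySubstructure N,
    ∀ z, z ∈ K ↔ ∃ f ∈ A, q f = z

/-- MODULE D1. (Let `U` be an ultrafilter on `F.X` containing all `G.S k`; `N` is the elementary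
substructure of the ultrapower of `ℕ` by `U` with elements the classes of the functions in `D`.
Łoś: `FirstOrder.Language.Ultraproduct.boundedFormula_realize_cast`; Tarski-Vaught:
`Substructure.isElementary_of_exists`; induction: least counterexamples are given by `skolem`.) -/
def BaseStatement : Prop :=
  ∀ (L : Type) [Lattice L] [BoundedOrder L] [Finite L] (F : Fam L) (G : Gen F),
    ∃ (N : Type) (_ : Language.ring.Structure N) (q : (F.X → ℕ) → N), IsPA N ∧ Pres G N q

/-- MODULE D2. (`K r` is given by `A r = {f ∈ D | ∃ k, ∀ x y ∈ S k, E r x y → f x = f y}`, and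
`M = K ⊥`. If `M ≤ K`, then `{r | q (e r) ∈ K}` has a greatest element `r`, and `K = K r`, because
`K` is closed under the definable function `a % ((h+1)*b+1)`.) -/
def IsoStatement : Prop :=
  ∀ (L : Type) [Lattice L] [BoundedOrder L] [Finite L] (F : Fam L) (G : Gen F)
    (N : Type) [Language.ring.Structure N] (q : (F.X → ℕ) → N), Pres G N q →
    ∃ M : Language.ring.ElementarySubstructure N,
      Nonempty ({K : Language.ring.ElementarySubstructure N // M ≤ K} ≃o L)

end Pool.Agent.Helper95_PA
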