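import Pool.Agent.Helper95_PA.Defs

/-!
# Module A: the canonical partition theorem for `L`-valued similarity spaces
-/

set_option autoImplicit false

namespace Pool.Agent.Helper95_PA

variable {L : Type} [Lattice L] {ρ : L}

namespace Sp

theorem le_top (A : Sp L ρ) (x y : A.carrier) : A.d x y ≤ ρ := by
  have h := A.tri x y x
  rwa [A.symm y x, inf_idem, A.d_self] at h

theorem tri' (A : Sp L ρ) (x y z : A.carrier) {c : L} (h1 : c ≤ A.d x y) (h2 : c ≤ A.d y z) :
    c ≤ A.d x z := (le_inf h1 h2).trans (A.tri x y z)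

end Sp

/-- Pseudo-spaces. -/
structure IsPs (ρ : L) {A : Type} (d : A → A → L) : Prop where
  self : ∀ x, d x x = ρ
  symm : ∀ x y, d x y = d y x
  tri : ∀ x y z, d x y ⊓ d y z ≤ d x z

theorem IsPs.le_top {A : Type} {d : A → A → L} (h : IsPs ρ d) (x y : A) : d x y ≤ ρ := by
  have h1 := h.tri x y x
  rwa [h.symm y x, inf_idem, h.self] at h1

theorem IsPs.congr {A : Type} {d : A → A → L} (h : IsPs ρ d) {x x' y y' : A}
    (hx : d x x' = ρ) (hy : d y y' = ρ) : d x y ≤ d x' y' := by
  have h1 : d x y ≤ d x' y := by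
    refine le_trans (le_inf ?_ le_rfl) (h.tri x' x y)
    rw [h.symm x' x, hx]
    exact h.le_top _ _
  have h2 : d x' y ≤ d x' y' := by
    refine le_trans (le_inf le_rfl ?_) (h.tri x' y y')
    rw [hy]
    exact h.le_top _ _
  exact h1.trans h2

/-- The separated quotient of a finite pseudo-space. -/
theorem exists_quot {A : Type} [Finite A] (d : A → A → L) (h : IsPs ρ d) :
    ∃ (C : Sp L ρ) (π : A → C.carrier), Function.Surjective π ∧
      ∀ x y, C.d (π x) (π y) = d x y := by
  let s : Setoid A :=
    { r := fun x y => d x y = ρ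
      iseqv :=
        { refl := fun x => h.self x
          symm := fun {x y} hxy => by rw [h.symm]; exact hxy
          trans := fun {x y z} hxy hyz => by
            refine le_antisymm (h.le_top _ _) ?_
            have := h.tri x y z
            rw [hxy, hyz, inf_idem] at this
            exact this } }
  refine ⟨{ carrier := Quotient s
            fin := inferInstance
            d := Quotient.lift₂ d (fun a b a' b' h1 h2 => le_antisymm (h.congr h1 h2)
              (h.congr ((h.symm _ _).trans h1) ((h.symm _ _).trans h2)))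
            d_self := ?_
            symm := ?_
            tri := ?_
            sep := ?_ }, Quotient.mk s, Quotient.mk_surjective, fun x y => rfl⟩
  · intro x
    induction x using Quotient.inductionOn with
    | h x => exact h.self x
  · intro x y
    induction x using Quotient.inductionOn with
    | h x =>
      induction y using Quotient.inductionOn with
      | h y => exact h.symm x y
  · intro x y z
    induction x using Quotient.inductionOn with
    | h x =>
      induction y using Quotient.inductionOn with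
      | h y =>
        induction z using Quotient.inductionOn with
        | h z => exact h.tri x y z
  · intro x y
    induction x using Quotient.inductionOn with
    | h x =>
      induction y using Quotient.inductionOn with
      | h y => exact fun hxy => Quotient.sound hxy

/-- Gated amalgamation along two points. -/
theorem glue (A B : Sp L ρ) (a b : A.carrier) (x y : B.carrier) (hab : A.d a b = B.d x y)
    (gate : ∀ z, A.d z b ≤ A.d z a ∨ A.d z a ≤ A.d z b) :
    ∃ (C : Sp L ρ) (i : A.carrier → C.carrier) (j : B.carrier → C.carrier),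
      (∀ z z', C.d (i z) (i z') = A.d z z') ∧ (∀ w w', C.d (j w) (j w') = B.d w w') ∧
      i a = j x ∧ i b = j y ∧
      (∀ z, A.d z b ≤ A.d z a → ∀ w, C.d (i z) (j w) = A.d z a ⊓ B.d x w) ∧
      (∀ z, A.d z a ≤ A.d z b → ∀ w, C.d (i z) (j w) = A.d z b ⊓ B.d y w) ∧
      ∀ c, (∃ z, c = i z) ∨ ∃ w, c = j w := by
  classical
  have := A.fin
  have := B.fin
  -- the cross similarity
  let m : A.carrier → B.carrier → L := fun z w =>
    if A.d z b ≤ A.d z a then A.d z a ⊓ B.d x w else A.d z b ⊓ B.d y w
  have hm1 : ∀ z, A.d z b ≤ A.d z a → ∀ w, m z w = A.d z a ⊓ B.d x w := fun z hz w => if_pos hz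
  have hm2 : ∀ z, A.d z a ≤ A.d z b → ∀ w, m z w = A.d z b ⊓ B.d y w := by
    intro z hz w
    by_cases h : A.d z b ≤ A.d z a
    · have he : A.d z a = A.d z b := le_antisymm hz h
      rw [hm1 z h w]
      have hxy : A.d z a ≤ B.d x y := by
        rw [← hab]
        exact A.tri' a z b (by rw [A.symm]) (by rw [← he])
      apply le_antisymm
      · refine le_inf (by rw [← he]; exact inf_le_left) (B.tri' y x w ?_ inf_le_right)
        rw [B.symm y x]
        exact inf_le_left.trans hxy
      · refine le_inf (by rw [← he]; exact inf_le_left) (B.tri' x y w ?_ inf_le_right)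
        rw [← he]
        exact inf_le_left.trans hxy
    · exact if_neg h
  have hm : ∀ z, (∀ w, m z w = A.d z a ⊓ B.d x w) ∧ A.d z b ≤ A.d z a ∨
      (∀ w, m z w = A.d z b ⊓ B.d y w) ∧ A.d z a ≤ A.d z b := by
    intro z
    rcases gate z with h | h
    · exact Or.inl ⟨hm1 z h, h⟩
    · exact Or.inr ⟨hm2 z h, h⟩
  -- z z' w
  have t1 : ∀ z z' w, m z w ⊓ m z' w ≤ A.d z z' := by
    intro z z' w
    rcases hm z with ⟨h1, -⟩ | ⟨h1, -⟩ <;> rcases hm z' with ⟨h2, -⟩ | ⟨h2, -⟩ <;> rw [h1, h2]
    · refine A.tri' z a z' (inf_le_left.trans inf_le_left) ?_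
      rw [A.symm a z']
      exact inf_le_right.trans inf_le_left
    · refine A.tri' z a z' (inf_le_left.trans inf_le_left) ?_
      refine A.tri' a b z' ?_ ?_
      · rw [hab]
        refine B.tri' x w y (inf_le_left.trans inf_le_right) ?_
        rw [B.symm w y]
        exact inf_le_right.trans inf_le_right
      · rw [A.symm b z']
        exact inf_le_right.trans inf_le_left
    · refine A.tri' z b z' (inf_le_left.trans inf_le_left) ?_
      refine A.tri' b a z' ?_ ?_
      · rw [A.symm b a, hab]
        refine B.tri' x w y ?_ ?_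
        · exact inf_le_right.trans inf_le_right
        · rw [B.symm w y]
          exact inf_le_left.trans inf_le_right
      · rw [A.symm a z']
        exact inf_le_right.trans inf_le_left
    · refine A.tri' z b z' (inf_le_left.trans inf_le_left) ?_
      rw [A.symm b z']
      exact inf_le_right.trans inf_le_left
  have t2 : ∀ z z' w, A.d z z' ⊓ m z' w ≤ m z w := by
    intro z z' w
    rcases hm z with ⟨h1, g1⟩ | ⟨h1, g1⟩ <;> rcases hm z' with ⟨h2, g2⟩ | ⟨h2, g2⟩ <;>
      rw [h1, h2]
    · exact le_inf (A.tri' z z' a inf_le_left (inf_le_right.trans inf_le_left))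
        (inf_le_right.trans inf_le_right)
    · have hb : A.d z z' ⊓ (A.d z' b ⊓ B.d y w) ≤ A.d z b :=
        A.tri' z z' b inf_le_left (inf_le_right.trans inf_le_left)
      refine le_inf (hb.trans g1) (B.tri' x y w ?_ (inf_le_right.trans inf_le_right))
      rw [← hab]
      refine A.tri' a z b ?_ hb
      rw [A.symm a z]
      exact hb.trans g1
    · have hb : A.d z z' ⊓ (A.d z' a ⊓ B.d x w) ≤ A.d z a :=
        A.tri' z z' a inf_le_left (inf_le_right.trans inf_le_left)
      refine le_inf (hb.trans g1) (B.tri' y x w ?_ (inf_le_right.trans inf_le_right))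
      rw [B.symm y x, ← hab]
      refine A.tri' a z b ?_ (hb.trans g1)
      rw [A.symm a z]
      exact hb
    · exact le_inf (A.tri' z z' b inf_le_left (inf_le_right.trans inf_le_left))
        (inf_le_right.trans inf_le_right)
  have t3 : ∀ z w w', m z w ⊓ B.d w w' ≤ m z w' := by
    intro z w w'
    rcases hm z with ⟨h1, -⟩ | ⟨h1, -⟩ <;> rw [h1, h1]
    · exact le_inf (inf_le_left.trans inf_le_left)
        (B.tri' x w w' (inf_le_left.trans inf_le_right) inf_le_right)
    · exact le_inf (inf_le_left.trans inf_le_left)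
        (B.tri' y w w' (inf_le_left.trans inf_le_right) inf_le_right)
  have t4 : ∀ z w w', m z w ⊓ m z w' ≤ B.d w w' := by
    intro z w w'
    rcases hm z with ⟨h1, -⟩ | ⟨h1, -⟩ <;> rw [h1, h1]
    · refine B.tri' w x w' ?_ (inf_le_right.trans inf_le_right)
      rw [B.symm w x]
      exact inf_le_left.trans inf_le_right
    · refine B.tri' w y w' ?_ (inf_le_right.trans inf_le_right)
      rw [B.symm w y]
      exact inf_le_left.trans inf_le_right
  let d : A.carrier ⊕ B.carrier → A.carrier ⊕ B.carrier → L := fun p q =>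
    match p, q with
    | .inl z, .inl z' => A.d z z'
    | .inr w, .inr w' => B.d w w'
    | .inl z, .inr w => m z w
    | .inr w, .inl z => m z w
  have hd : IsPs ρ d := by
    refine ⟨?_, ?_, ?_⟩
    · rintro (z | w)
      · exact A.d_self z
      · exact B.d_self w
    · rintro (z | w) (z' | w')
      · exact A.symm z z'
      · rfl
      · rfl
      · exact B.symm w w'
    · rintro (z | w) (z' | w') (z'' | w'')
      · exact A.tri z z' z''
      · exact t2 z z' w''
      · exact t1 z z'' w'
      · exact t3 z w' w''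
      · change m z' w ⊓ A.d z' z'' ≤ m z'' w
        rw [inf_comm, A.symm]
        exact t2 z'' z' w
      · exact t4 z' w w''
      · change B.d w w' ⊓ m z'' w' ≤ m z'' w
        rw [inf_comm, B.symm]
        exact t3 z'' w' w
      · exact B.tri w w' w''
  obtain ⟨C, π, hπ, hC⟩ := exists_quot d hd
  refine ⟨C, fun z => π (.inl z), fun w => π (.inr w), fun z z' => hC _ _, fun w w' => hC _ _,
    ?_, ?_, ?_, ?_, ?_⟩
  · refine C.sep _ _ ?_
    rw [hC]
    change m a x = ρ
    rcases hm a with ⟨h1, -⟩ | ⟨h1, h2⟩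
    · rw [h1, A.d_self, B.d_self, inf_idem]
    · rw [h1, B.symm, ← hab, inf_idem]
      rw [A.d_self] at h2
      exact le_antisymm (A.le_top _ _) h2
  · refine C.sep _ _ ?_
    rw [hC]
    change m b y = ρ
    rcases hm b with ⟨h1, h2⟩ | ⟨h1, -⟩
    · rw [h1, ← hab, A.symm, inf_idem]
      rw [A.d_self] at h2
      refine le_antisymm (A.le_top _ _) ?_
      rw [A.symm]
      exact h2
    · rw [h1, A.d_self, B.d_self, inf_idem]
  · intro z hz w
    rw [hC]
    exact hm1 z hz w
  · intro z hz w
    rw [hC]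
    exact hm2 z hz w
  · intro c
    obtain ⟨p, rfl⟩ := hπ c
    rcases p with z | w
    · exact Or.inl ⟨z, rfl⟩
    · exact Or.inr ⟨w, rfl⟩

/-- `x1` and `x2` are connected in `D` through homomorphic images of the pair `(x, y)`. -/
def Conn (B D : Sp L ρ) (x y : B.carrier) (x1 x2 : D.carrier) : Prop :=
  ∃ τ1 τ2 : B.carrier → D.carrier, (∀ u v, B.d u v ≤ D.d (τ1 u) (τ1 v)) ∧
    (∀ u v, B.d u v ≤ D.d (τ2 u) (τ2 v)) ∧ τ1 x = x1 ∧ τ2 x = x2 ∧ τ1 y = τ2 y

theorem exists_conn (B D : Sp L ρ) (x y : B.carrier) (x1 x2 : D.carrier)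
    (h : D.d x1 x2 = B.d x y) :
    ∃ (D' : Sp L ρ) (i : D.carrier → D'.carrier), (∀ z z', D'.d (i z) (i z') = D.d z z') ∧
      Conn B D' x y (i x1) (i x2) := by
  obtain ⟨A, i1, j1, hi1, hj1, ha1, -, hg1, -, hs1⟩ :=
    glue D B x1 x1 x x (by rw [D.d_self, B.d_self]) (fun z => Or.inl le_rfl)
  have hcross : ∀ z w, A.d (i1 z) (j1 w) = D.d z x1 ⊓ B.d x w := fun z w => hg1 z le_rfl w
  obtain ⟨C, i2, j2, hi2, hj2, ha2, hb2, -, -, -⟩ := glue A B (i1 x2) (j1 y) x y
    (by
      rw [hcross, D.symm, h, inf_idem])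
    (by
      intro c
      rcases hs1 c with ⟨z, rfl⟩ | ⟨w, rfl⟩
      · left
        rw [hcross, hi1, ← h]
        exact D.tri z x1 x2
      · right
        rw [A.symm, hcross, hj1, D.symm, h]
        refine B.tri' w x y ?_ inf_le_left
        rw [B.symm w x]
        exact inf_le_right)
  refine ⟨C, fun z => i2 (i1 z), fun z z' => by rw [hi2, hi1], fun u => i2 (j1 u), j2,
    fun u v => by rw [hi2, hj1], fun u v => by rw [hj2], ?_, ?_, ?_⟩
  · change i2 (j1 x) = i2 (i1 x1)
    rw [ha1]
  · exact ha2.symm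
  · exact hb2

theorem Conn.map {B D D' : Sp L ρ} {i : D.carrier → D'.carrier}
    (hi : ∀ z z', D'.d (i z) (i z') = D.d z z') {x y : B.carrier} {x1 x2 : D.carrier}
    (h : Conn B D x y x1 x2) : Conn B D' x y (i x1) (i x2) := by
  obtain ⟨τ1, τ2, h1, h2, h3, h4, h5⟩ := h
  refine ⟨fun u => i (τ1 u), fun u => i (τ2 u), fun u v => by rw [hi]; exact h1 u v,
    fun u v => by rw [hi]; exact h2 u v, ?_, ?_, ?_⟩
  · change i (τ1 x) = i x1
    rw [h3]
  · change i (τ2 x) = i x2
    rw [h4]
  · change i (τ1 y) = i (τ2 y)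
    rw [h5]

theorem exists_conn_list (B D : Sp L ρ)
    (l : List (B.carrier × B.carrier × D.carrier × D.carrier)) :
    ∃ (D' : Sp L ρ) (i : D.carrier → D'.carrier), (∀ z z', D'.d (i z) (i z') = D.d z z') ∧
      ∀ q ∈ l, D.d q.2.2.1 q.2.2.2 = B.d q.1 q.2.1 →
        Conn B D' q.1 q.2.1 (i q.2.2.1) (i q.2.2.2) := by
  induction l with
  | nil => exact ⟨D, id, fun z z' => rfl, by simp⟩
  | cons q l ih =>
    obtain ⟨D', i, hi, hl⟩ := ih
    by_cases hq : D.d q.2.2.1 q.2.2.2 = B.d q.1 q.2.1
    · obtain ⟨D'', i', hi', hc⟩ := exists_conn B D' q.1 q.2.1 (i q.2.2.1) (i q.2.2.2)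
        (by rw [hi, hq])
      refine ⟨D'', fun z => i' (i z), fun z z' => by rw [hi', hi], ?_⟩
      intro q' hq' he
      rcases List.mem_cons.1 hq' with rfl | hq'
      · exact hc
      · exact (hl q' hq' he).map hi'
    · refine ⟨D', i, hi, ?_⟩
      intro q' hq' he
      rcases List.mem_cons.1 hq' with rfl | hq'
      · exact absurd he hq
      · exact hl q' hq' he

theorem exists_conn_all (B D : Sp L ρ) :
    ∃ (D' : Sp L ρ) (i : D.carrier → D'.carrier), (∀ z z', D'.d (i z) (i z') = D.d z z') ∧
      ∀ x y x1 x2, D.d x1 x2 = B.d x y → Conn B D' x y (i x1) (i x2) := by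
  have := B.fin
  have := D.fin
  obtain ⟨_⟩ := nonempty_fintype (B.carrier × B.carrier × D.carrier × D.carrier)
  obtain ⟨D', i, hi, h⟩ := exists_conn_list B D Finset.univ.toList
  exact ⟨D', i, hi, fun x y x1 x2 he => h (x, y, x1, x2) (by simp) he⟩

/-- Products. -/
def prodSp (A B : Sp L ρ) : Sp L ρ where
  carrier := A.carrier × B.carrier
  fin := by
    have := A.fin
    have := B.fin
    infer_instance
  d p q := A.d p.1 q.1 ⊓ B.d p.2 q.2
  d_self p := by rw [A.d_self, B.d_self, inf_idem]
  symm p q := by rw [A.symm, B.symm]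
  tri p q r := le_inf
    (A.tri' _ q.1 _ (inf_le_left.trans inf_le_left) (inf_le_right.trans inf_le_left))
    (B.tri' _ q.2 _ (inf_le_left.trans inf_le_right) (inf_le_right.trans inf_le_right))
  sep p q h := by
    refine Prod.ext (A.sep _ _ (le_antisymm (A.le_top _ _) ?_))
      (B.sep _ _ (le_antisymm (B.le_top _ _) ?_))
    · exact h.ge.trans inf_le_left
    · exact h.ge.trans inf_le_right

theorem prodSp_d (A B : Sp L ρ) (p q : A.carrier × B.carrier) :
    (prodSp A B).d p q = A.d p.1 q.1 ⊓ B.d p.2 q.2 := rfl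

/-- Finite products. -/
def piSp [OrderTop L] {ι : Type} [Fintype ι] (A : ι → Sp L ρ) : Sp L ρ where
  carrier := ∀ i, (A i).carrier
  fin := by
    have := fun i => (A i).fin
    infer_instance
  d p q := ρ ⊓ Finset.univ.inf fun i => (A i).d (p i) (q i)
  d_self p := by
    refine le_antisymm inf_le_left (le_inf le_rfl (Finset.le_inf fun i _ => ?_))
    rw [(A i).d_self]
  symm p q := by
    congr 1
    exact Finset.inf_congr rfl fun i _ => (A i).symm _ _
  tri p q r := by
    refine le_inf (inf_le_left.trans inf_le_left) (Finset.le_inf fun i _ => ?_)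
    refine (A i).tri' _ (q i) _ ?_ ?_
    · exact inf_le_left.trans (inf_le_right.trans (Finset.inf_le (Finset.mem_univ i)))
    · exact inf_le_right.trans (inf_le_right.trans (Finset.inf_le (Finset.mem_univ i)))
  sep p q h := by
    funext i
    refine (A i).sep _ _ (le_antisymm ((A i).le_top _ _) ?_)
    exact h.ge.trans (inf_le_right.trans (Finset.inf_le (Finset.mem_univ i)))

theorem piSp_d [OrderTop L] {ι : Type} [Fintype ι] (A : ι → Sp L ρ)
    (p q : ∀ i, (A i).carrier) :
    (piSp A).d p q = ρ ⊓ Finset.univ.inf fun i => (A i).d (p i) (q i) := rfl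

theorem exists_sum [OrderTop L] {ι : Type} [Finite ι] (A : ι → Sp L ρ)
    (hne : ∀ i, Nonempty (A i).carrier) :
    ∃ (D : Sp L ρ) (e : ∀ i, (A i).carrier → D.carrier),
      ∀ i z z', D.d (e i z) (e i z') = (A i).d z z' := by
  classical
  obtain ⟨_⟩ := nonempty_fintype ι
  let base : ∀ i, (A i).carrier := fun i => (hne i).some
  refine ⟨piSp A, fun i z => Function.update base i z, ?_⟩
  intro i z z'
  rw [piSp_d]
  apply le_antisymm
  · refine (inf_le_right.trans (Finset.inf_le (Finset.mem_univ i))).trans ?_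
    simp only [Function.update_self]
    exact le_rfl
  · refine le_inf ((A i).le_top _ _) (Finset.le_inf fun k _ => ?_)
    by_cases hk : k = i
    · subst hk
      simp only [Function.update_self]
      exact le_rfl
    · simp only [Function.update_of_ne hk, (A k).d_self]
      exact (A i).le_top _ _

/-- The space with two points at similarity `σ`. -/
def twoSp (σ : L) (h : σ < ρ) : Sp L ρ where
  carrier := Bool
  fin := inferInstance
  d i j := if i = j then ρ else σ
  d_self i := if_pos rfl
  symm i j := by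
    by_cases hij : i = j
    · rw [hij]
    · rw [if_neg hij, if_neg (Ne.symm hij)]
  tri i j k := by
    cases i <;> cases j <;> cases k <;> simp [h.le]
  sep i j hij := by
    by_contra hne
    rw [if_neg hne] at hij
    exact h.ne hij

/-- If `σ < ρ` and the canonical partition theorem holds for `σ`, then each `B` has a space `E`
such that all equivalence relations containing `{σ ≤ d}` are canonical on a copy of `B`. -/
theorem lift_of_lt {σ : L} (h : σ < ρ) (B : Sp L ρ) (hne : Nonempty B.carrier)
    (ih : ∀ B' : Sp L σ, ∃ C : Sp L σ, Can B' C) :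
    ∃ E : Sp L ρ, ∀ Θ : E.carrier → E.carrier → Prop, Equivalence Θ →
      (∀ p q, σ ≤ E.d p q → Θ p q) →
      ∃ (f : B.carrier → E.carrier) (r : L), (∀ x y, E.d (f x) (f y) = B.d x y) ∧
        ∀ x y, Θ (f x) (f y) ↔ r ≤ B.d x y := by
  classical
  have hBfin := B.fin
  have hps : IsPs σ (fun x y : B.carrier => B.d x y ⊓ σ) := by
    refine ⟨fun x => ?_, fun x y => ?_, fun x y z => ?_⟩
    · rw [B.d_self]
      exact inf_eq_right.2 h.le
    · rw [B.symm]
    · exact le_inf (B.tri' x y z (inf_le_left.trans inf_le_left) (inf_le_right.trans inf_le_left))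
        (inf_le_left.trans inf_le_right)
  obtain ⟨Bσ, π, hπ, hB⟩ := exists_quot _ hps
  obtain ⟨C, hC⟩ := ih Bσ
  have hCfin := C.fin
  let G : Type := {g : B.carrier → C.carrier // ∀ x y, C.d (g x) (g y) = B.d x y ⊓ σ}
  let e : G × B.carrier → G × B.carrier → L := fun p q => C.d (p.1.1 p.2) (q.1.1 q.2)
  let d : G × B.carrier → G × B.carrier → L := fun p q =>
    if p.1 = q.1 then B.d p.2 q.2 else e p q
  have hde : ∀ p q, d p q ⊓ σ = e p q := by
    intro p q
    by_cases hpq : p.1 = q.1
    · change (if p.1 = q.1 then B.d p.2 q.2 else e p q) ⊓ σ = C.d (p.1.1 p.2) (q.1.1 q.2)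
      rw [if_pos hpq, ← hpq]
      exact (p.1.2 _ _).symm
    · change (if p.1 = q.1 then B.d p.2 q.2 else e p q) ⊓ σ = e p q
      rw [if_neg hpq]
      exact inf_eq_left.2 (C.le_top _ _)
  have hdpos : ∀ p q, p.1 = q.1 → d p q = B.d p.2 q.2 := fun p q h => if_pos h
  have hdneg : ∀ p q, p.1 ≠ q.1 → d p q = e p q := fun p q h => if_neg h
  have hle : ∀ p q, e p q ≤ σ := fun p q => C.le_top _ _
  have hed : ∀ p q, e p q ≤ d p q := fun p q => by
    rw [← hde]
    exact inf_le_left
  let E : Sp L ρ :=
    { carrier := G × B.carrier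
      fin := inferInstance
      d := d
      d_self := fun p => by
        rw [hdpos p p rfl]
        exact B.d_self _
      symm := fun p q => by
        by_cases hpq : p.1 = q.1
        · rw [hdpos p q hpq, hdpos q p hpq.symm]
          exact B.symm _ _
        · rw [hdneg p q hpq, hdneg q p (Ne.symm hpq)]
          exact C.symm _ _
      tri := fun p q r => by
        by_cases hpr : p.1 = r.1
        · by_cases hpq : p.1 = q.1
          · rw [hdpos p q hpq, hdpos q r (hpq.symm.trans hpr), hdpos p r hpr]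
            exact B.tri _ _ _
          · rw [hdneg p q hpq, hdneg q r (fun h => hpq (hpr.trans h.symm))]
            exact (C.tri _ _ _).trans (hed p r)
        · rw [hdneg p r hpr]
          have hσ : d p q ⊓ d q r ≤ σ := by
            by_cases hpq : p.1 = q.1
            · rw [hdneg q r (fun h => hpr (hpq.trans h))]
              exact inf_le_right.trans (hle _ _)
            · rw [hdneg p q hpq]
              exact inf_le_left.trans (hle _ _)
          have h1 : d p q ⊓ d q r ≤ e p q := by
            rw [← hde]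
            exact le_inf inf_le_left hσ
          have h2 : d p q ⊓ d q r ≤ e q r := by
            rw [← hde q r]
            exact le_inf inf_le_right hσ
          exact C.tri' _ _ _ h1 h2
      sep := fun p q hpq => by
        by_cases h1 : p.1 = q.1
        · rw [hdpos p q h1] at hpq
          exact Prod.ext h1 (B.sep _ _ hpq)
        · rw [hdneg p q h1] at hpq
          exact absurd (hpq ▸ hle p q) h.not_ge }
  refine ⟨E, ?_⟩
  intro Θ hΘ hΘσ
  have key : ∀ p q : G × B.carrier, p.1.1 p.2 = q.1.1 q.2 → Θ p q := by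
    intro p q hpq
    refine hΘσ p q ?_
    have h1 : d p q ⊓ σ = σ := by
      rw [hde]
      change C.d (p.1.1 p.2) (q.1.1 q.2) = σ
      rw [hpq, C.d_self]
    exact inf_eq_right.1 h1
  let Θ' : C.carrier → C.carrier → Prop := fun u v =>
    u = v ∨ ∃ p q : G × B.carrier, p.1.1 p.2 = u ∧ q.1.1 q.2 = v ∧ Θ p q
  have hΘ' : Equivalence Θ' := by
    refine ⟨fun u => Or.inl rfl, ?_, ?_⟩
    · rintro u v (rfl | ⟨p, q, h1, h2, h3⟩)
      · exact Or.inl rfl
      · exact Or.inr ⟨q, p, h2, h1, hΘ.symm h3⟩
    · rintro u v w (rfl | ⟨p, q, h1, h2, h3⟩) (rfl | ⟨p', q', h1', h2', h3'⟩)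
      · exact Or.inl rfl
      · exact Or.inr ⟨p', q', h1', h2', h3'⟩
      · exact Or.inr ⟨p, q, h1, h2, h3⟩
      · exact Or.inr ⟨p, q', h1, h2',
          hΘ.trans h3 (hΘ.trans (key q p' (h2.trans h1'.symm)) h3')⟩
  obtain ⟨f', r, hf', hr⟩ := hC Θ' hΘ'
  have hg : ∀ x y, C.d (f' (π x)) (f' (π y)) = B.d x y ⊓ σ := fun x y => by rw [hf', hB]
  let g : G := ⟨fun x => f' (π x), hg⟩
  have hiff : ∀ x y : B.carrier, Θ (g, x) (g, y) ↔ r ≤ B.d x y ⊓ σ := by
    intro x y
    rw [← hB, ← hr]
    constructor
    · intro h1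
      exact Or.inr ⟨(g, x), (g, y), rfl, rfl, h1⟩
    · rintro (h1 | ⟨p, q, h1, h2, h3⟩)
      · exact key (g, x) (g, y) h1
      · exact hΘ.trans (key (g, x) p h1.symm) (hΘ.trans h3 (key q (g, y) h2))
  obtain ⟨b0⟩ := hne
  have hrσ : r ≤ σ := ((hiff b0 b0).1 (hΘ.refl _)).trans inf_le_right
  refine ⟨fun x => (g, x), r, fun x y => hdpos _ _ rfl, fun x y => ?_⟩
  rw [hiff]
  exact ⟨fun h1 => h1.trans inf_le_left, fun h1 => le_inf h1 hrσ⟩

/-- The canonical partition theorem: every equivalence relation on a suitable finite space `C` is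
of the form `{r ≤ d}` on an isometric copy of the given finite space `B`. -/
theorem can [Finite L] : ∀ (ρ : L) (B : Sp L ρ), ∃ C : Sp L ρ, Can B C := by
  classical
  intro ρ
  induction ρ using WellFoundedLT.induction with
  | ind ρ ih =>
  intro B
  rcases isEmpty_or_nonempty B.carrier with hemp | hne
  · exact ⟨B, fun Θ _ => ⟨id, ρ, fun x => hemp.elim x, fun x => hemp.elim x⟩⟩
  have : Nonempty L := ⟨ρ⟩
  obtain ⟨_⟩ := nonempty_fintype L
  let _ : BoundedOrder L := Fintype.toBoundedOrder L
  -- the spaces for smaller top values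
  have hE : ∀ σ : {σ : L // σ < ρ}, ∃ E : Sp L ρ, ∀ Θ : E.carrier → E.carrier → Prop,
      Equivalence Θ → (∀ p q, σ.1 ≤ E.d p q → Θ p q) →
      ∃ (f : B.carrier → E.carrier) (r : L), (∀ x y, E.d (f x) (f y) = B.d x y) ∧
        ∀ x y, Θ (f x) (f y) ↔ r ≤ B.d x y :=
    fun σ => lift_of_lt σ.2 B hne (fun B' => ih σ.1 σ.2 B')
  choose E hE using hE
  have hEne : ∀ σ, Nonempty (E σ).carrier := by
    intro σ
    obtain ⟨f, -⟩ := hE σ (fun _ _ => True) ⟨fun _ => trivial, fun _ => trivial,
      fun _ _ => trivial⟩ (fun _ _ _ => trivial)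
    exact ⟨f hne.some⟩
  obtain ⟨D, e, he⟩ := exists_sum (fun σ : {σ : L // σ < ρ} => prodSp (E σ) (twoSp σ.1 σ.2))
    (fun σ => ⟨((hEne σ).some, false)⟩)
  obtain ⟨D', i, hi, hconn⟩ := exists_conn_all B D
  -- wlog nonempty
  rcases isEmpty_or_nonempty D'.carrier with hemp' | hne'
  · -- then there is no `σ < ρ`, and `B` has one point
    have hno : ∀ σ, ¬ σ < ρ := fun σ hσ =>
      hemp'.elim (i (e ⟨σ, hσ⟩ ((hEne ⟨σ, hσ⟩).some, false)))
    refine ⟨B, fun Θ hΘ => ⟨id, ρ, fun x y => rfl, fun x y => ?_⟩⟩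
    have hxy : B.d x y = ρ := by
      by_contra hne1
      exact hno _ (lt_of_le_of_ne (B.le_top x y) hne1)
    have : x = y := B.sep _ _ hxy
    subst this
    simp only [id]
    exact ⟨fun _ => hxy.ge, fun _ => hΘ.refl _⟩
  have hBfin := B.fin
  have hD'fin := D'.fin
  let Sg : Type := {τ : B.carrier → D'.carrier // ∀ u v, B.d u v ≤ D'.d (τ u) (τ v)}
  obtain ⟨ι, _, hHJ⟩ := Combinatorics.Line.exists_mono_in_high_dimension Sg
    (B.carrier → B.carrier → Prop)
  refine ⟨prodSp B (piSp fun _ : ι => D'), ?_⟩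
  intro Θ hΘ
  obtain ⟨l, θ, hθ⟩ := hHJ (fun τ u v => Θ (u, fun k => (τ k).1 u) (v, fun k => (τ k).1 v))
  have hθ' : ∀ (τ : Sg) (u v : B.carrier),
      Θ (u, fun k => ((l.idxFun k).getD τ).1 u) (v, fun k => ((l.idxFun k).getD τ).1 v) ↔
        θ u v := by
    intro τ u v
    have := congrFun (congrFun (hθ τ) u) v
    exact iff_of_eq this
  by_cases hdisc : ∀ u v, θ u v → u = v
  · -- discrete case
    obtain ⟨z0⟩ := hne'
    let τ0 : Sg := ⟨fun _ => z0, fun u v => by rw [D'.d_self]; exact B.le_top u v⟩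
    refine ⟨fun u => (u, fun k => ((l.idxFun k).getD τ0).1 u), ρ, ?_, ?_⟩
    · intro u v
      rw [prodSp_d, piSp_d]
      refine inf_eq_left.2 (le_inf (B.le_top _ _) (Finset.le_inf fun k _ => ?_))
      exact ((l.idxFun k).getD τ0).2 u v
    · intro u v
      rw [hθ' τ0]
      constructor
      · intro h1
        rw [hdisc u v h1, B.d_self]
      · intro h1
        have : u = v := B.sep _ _ (le_antisymm (B.le_top _ _) h1)
        subst this
        exact (hθ' τ0 u u).1 (hΘ.refl _)
  · push Not at hdisc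
    obtain ⟨x, y, hxy, hne2⟩ := hdisc
    have hσ : B.d x y < ρ := lt_of_le_of_ne (B.le_top _ _) (fun h => hne2 (B.sep _ _ h))
    let J : B.carrier → D'.carrier → B.carrier × (ι → D'.carrier) := fun u z =>
      (u, fun k => match l.idxFun k with
        | none => z
        | some τ => τ.1 u)
    have hJτ : ∀ (τ : Sg) (u : B.carrier),
        J u (τ.1 u) = (u, fun k => ((l.idxFun k).getD τ).1 u) := by
      intro τ u
      refine Prod.ext rfl (funext fun k => ?_)
      change (match l.idxFun k with
        | none => τ.1 u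
        | some τ' => τ'.1 u) = ((l.idxFun k).getD τ).1 u
      cases l.idxFun k <;> rfl
    have hJ : ∀ τ : Sg, Θ (J x (τ.1 x)) (J y (τ.1 y)) := by
      intro τ
      rw [hJτ, hJτ]
      exact (hθ' τ x y).2 hxy
    have hJd : ∀ z z', (prodSp B (piSp fun _ : ι => D')).d (J x z) (J x z') = D'.d z z' := by
      intro z z'
      have hform : (prodSp B (piSp fun _ : ι => D')).d (J x z) (J x z') =
        B.d x x ⊓ (ρ ⊓ Finset.univ.inf fun k => D'.d ((J x z).2 k) ((J x z').2 k)) := rfl
      rw [hform]
      apply le_antisymm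
      · obtain ⟨k, hk⟩ := l.proper
        refine (inf_le_right.trans (inf_le_right.trans (Finset.inf_le (Finset.mem_univ k)))).trans
          ?_
        change D'.d (match l.idxFun k with
          | none => z
          | some τ' => τ'.1 x) (match l.idxFun k with
          | none => z'
          | some τ' => τ'.1 x) ≤ D'.d z z'
        rw [hk]
      · refine le_inf ?_ (le_inf (D'.le_top _ _) (Finset.le_inf fun k _ => ?_))
        · rw [B.d_self]
          exact D'.le_top _ _
        · change D'.d z z' ≤ D'.d (match l.idxFun k with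
            | none => z
            | some τ' => τ'.1 x) (match l.idxFun k with
            | none => z'
            | some τ' => τ'.1 x)
          cases l.idxFun k with
          | none => exact le_rfl
          | some τ' =>
            change D'.d z z' ≤ D'.d (τ'.1 x) (τ'.1 x)
            rw [D'.d_self]
            exact D'.le_top _ _
    have hconn' : ∀ z1 z2, D.d z1 z2 = B.d x y → Θ (J x (i z1)) (J x (i z2)) := by
      intro z1 z2 h12
      obtain ⟨τ1, τ2, h1, h2, h3, h4, h5⟩ := hconn x y z1 z2 h12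
      have a1 := hJ ⟨τ1, h1⟩
      have a2 := hJ ⟨τ2, h2⟩
      simp only [h3, h4, h5] at a1 a2
      exact hΘ.trans a1 (hΘ.symm a2)
    let σ : {σ : L // σ < ρ} := ⟨B.d x y, hσ⟩
    have hΘ2 : ∀ p q : (E σ).carrier, σ.1 ≤ (E σ).d p q →
        Θ (J x (i (e σ (p, false)))) (J x (i (e σ (q, false)))) := by
      intro p q hpq
      have b1 : Θ (J x (i (e σ (p, false)))) (J x (i (e σ (q, true)))) := by
        refine hconn' _ _ ((he σ (p, false) (q, true)).trans ?_)
        change (E σ).d p q ⊓ σ.1 = B.d x y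
        exact inf_eq_right.2 hpq
      have b2 : Θ (J x (i (e σ (q, true)))) (J x (i (e σ (q, false)))) := by
        refine hconn' _ _ ((he σ (q, true) (q, false)).trans ?_)
        change (E σ).d q q ⊓ σ.1 = B.d x y
        rw [(E σ).d_self]
        exact inf_eq_right.2 σ.2.le
      exact hΘ.trans b1 b2
    obtain ⟨f, r, hf, hr⟩ := hE σ
      (fun p q => Θ (J x (i (e σ (p, false)))) (J x (i (e σ (q, false)))))
      ⟨fun p => hΘ.refl _, fun h => hΘ.symm h, fun h h' => hΘ.trans h h'⟩ hΘ2
    refine ⟨fun u => J x (i (e σ (f u, false))), r, ?_, hr⟩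
    intro u v
    rw [hJd, hi]
    refine (he σ (f u, false) (f v, false)).trans ?_
    change (E σ).d (f u) (f v) ⊓ ρ = B.d u v
    rw [hf]
    exact inf_eq_left.2 (B.le_top _ _)

theorem canStatement : CanStatement := fun _ _ _ ρ B => can ρ B

end Pool.Agent.Helper95_PA
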