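import Pool.Agent.Helper95_PA.Defs

/-!
# Every finite lattice is an interstructure lattice of models of PA
-/

set_option autoImplicit false

namespace Pool.Agent.Helper95_PA

open FirstOrder FirstOrder.Language

theorem final (hfam : FamStatement) (hgen : GenStatement) (hbase : BaseStatement)
    (hiso : IsoStatement) (Λ : Type) [Lattice Λ] [Finite Λ] [Nonempty Λ] :
    ∃ (N : Type) (_ : Language.ring.Structure N), IsPA N ∧
      ∃ M : Language.ring.ElementarySubstructure N,
        Nonempty ({K : Language.ring.ElementarySubstructure N // M ≤ K} ≃o Λ) := by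
  classical
  obtain ⟨_⟩ := nonempty_fintype Λ
  let _ : BoundedOrder Λ := Fintype.toBoundedOrder Λ
  obtain ⟨F⟩ := hfam Λ
  obtain ⟨G⟩ := hgen Λ F
  obtain ⟨N, sN, q, hPA, hq⟩ := hbase Λ F G
  exact ⟨N, sN, hPA, hiso Λ F G N q hq⟩

end Pool.Agent.Helper95_PA
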